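import Pool.Agent.DPt.Local

/-!
# Double points and the number of points on a line

`K` is a field of characteristic zero.  Points and lines of the projective plane over `K` are elements of
`ℙ K (Fin 3 → K)`; the line `L` passes through the point `p` iff `L.orthogonal p` (the product of the coordinate
vectors is `0`).
-/

open scoped LinearAlgebra.Projectivization

namespace Pool.Agent.Results.MP_92820f_co.FewPointsOnH

variable {K : Type*} [Field K]

/-- The number of lines of `A` through the point `p`. -/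
noncomputable def mult (A : Set (ℙ K (Fin 3 → K))) (p : ℙ K (Fin 3 → K)) : ℕ :=
  {L | L ∈ A ∧ L.orthogonal p}.ncard

/-- The points of the line `H` which lie on a line of `A` other than `H`. -/
def trace (A : Set (ℙ K (Fin 3 → K))) (H : ℙ K (Fin 3 → K)) : Set (ℙ K (Fin 3 → K)) :=
  {p | H.orthogonal p ∧ ∃ L ∈ A, L ≠ H ∧ L.orthogonal p}

/-- The points off `H` which lie on exactly two lines of `A`. -/
def doublePointsOff (A : Set (ℙ K (Fin 3 → K))) (H : ℙ K (Fin 3 → K)) :
    Set (ℙ K (Fin 3 → K)) :=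
  {p | ¬ H.orthogonal p ∧ mult A p = 2}

/-- All lines of `A` pass through one point. -/
def IsPencil (A : Set (ℙ K (Fin 3 → K))) : Prop := ∃ p, ∀ L ∈ A, L.orthogonal p

theorem result [CharZero K] (A : Set (ℙ K (Fin 3 → K))) (hA : A.Finite)
    (H : ℙ K (Fin 3 → K)) :
    (3 ≤ (trace A H).ncard →
      (∀ p ∈ trace A H, 2 * (mult (A \ {H}) p - ((trace A H).ncard - 2)) ≤
        {q | q ∈ doublePointsOff A H ∧ ∃ L ∈ A, L.orthogonal p ∧ L.orthogonal q}.ncard) ∧
      ∑ᶠ p ∈ trace A H, (mult (A \ {H}) p - ((trace A H).ncard - 2)) ≤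
        (doublePointsOff A H).ncard ∧
      (A \ {H}).ncard ≤
        (trace A H).ncard * ((trace A H).ncard - 2) + (doublePointsOff A H).ncard) ∧
    ((∀ p, mult A p ≠ 2) → ¬ IsPencil A →
      5 ≤ (trace A H).ncard ∨ (H ∈ A ∧ (trace A H).ncard = 4 ∧ A.ncard = 9)) := by
  classical
  obtain ⟨A, rfl⟩ := hA.exists_finset_coe
  set B : Finset (ℙ K (Fin 3 → K)) := A.erase H with hB
  have hHB : H ∉ B := Finset.notMem_erase H A
  have hBset : ((A : Set (ℙ K (Fin 3 → K))) \ {H}) = (B : Set (ℙ K (Fin 3 → K))) := by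
    rw [hB, Finset.coe_erase]
  have htr : trace (A : Set (ℙ K (Fin 3 → K))) H =
      {p | H.orthogonal p ∧ ∃ L ∈ B, L.orthogonal p} := by
    ext p
    constructor
    · rintro ⟨h1, L, hL, hLH, hLp⟩
      exact ⟨h1, L, Finset.mem_erase.mpr ⟨hLH, Finset.mem_coe.mp hL⟩, hLp⟩
    · rintro ⟨h1, L, hL, hLp⟩
      obtain ⟨h2, h3⟩ := Finset.mem_erase.mp hL
      exact ⟨h1, L, Finset.mem_coe.mpr h3, h2, hLp⟩
  have hmult : ∀ (C : Finset (ℙ K (Fin 3 → K))) (p : ℙ K (Fin 3 → K)),
      mult (C : Set (ℙ K (Fin 3 → K))) p = DPt.mult C p := fun C p => rfl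
  have hmultA : ∀ p, ¬ H.orthogonal p → mult (A : Set (ℙ K (Fin 3 → K))) p = DPt.mult B p := by
    intro p hp
    rw [hmult, DPt.mult_eq, DPt.mult_eq]
    congr 1
    ext L
    simp only [hB, Finset.mem_filter, Finset.mem_erase]
    constructor
    · rintro ⟨h1, h2⟩
      refine ⟨⟨?_, h1⟩, h2⟩
      rintro rfl
      exact hp h2
    · rintro ⟨⟨_, h1⟩, h2⟩
      exact ⟨h1, h2⟩
  have hdbl : doublePointsOff (A : Set (ℙ K (Fin 3 → K))) H = DPt.dbl B H := by
    ext p
    constructor
    · rintro ⟨h1, h2⟩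
      exact ⟨h1, by rw [← hmultA p h1]; exact h2⟩
    · rintro ⟨h1, h2⟩
      exact ⟨h1, by rw [hmultA p h1]; exact h2⟩
  refine ⟨?_, ?_⟩
  · intro h3
    rw [hBset, htr, hdbl, Set.ncard_coe_finset]
    rw [htr] at h3
    obtain ⟨h4, h5⟩ := DPt.many_double B H hHB h3
    refine ⟨?_, ?_, h5⟩
    · intro p hp
      have h6 := DPt.local_double B H hHB h3 p hp
      have h7 : {q | q ∈ DPt.dbl B H ∧ ∃ L ∈ (A : Set (ℙ K (Fin 3 → K))), L.orthogonal p ∧
          L.orthogonal q} = DPt.dblAt B H p := by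
        ext q
        constructor
        · rintro ⟨h8, L, hL, h9, h10⟩
          refine ⟨h8, L, Finset.mem_erase.mpr ⟨?_, Finset.mem_coe.mp hL⟩, h9, h10⟩
          rintro rfl
          exact h8.1 h10
        · rintro ⟨h8, L, hL, h9, h10⟩
          exact ⟨h8, L, Finset.mem_coe.mpr (Finset.mem_erase.mp hL).2, h9, h10⟩
      rw [h7]
      exact h6
    · simp only [hmult]
      exact h4
  · intro h2 hpen
    rw [htr]
    by_cases hHA : H ∈ A
    · have hins : insert H B = A := Finset.insert_erase hHA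
      have h3 := DPt.four_le B H hHB (by
        intro p
        rw [hins]
        exact h2 p) (by
        rw [hins]
        exact hpen)
      by_cases h4 : {p | H.orthogonal p ∧ ∃ L ∈ B, L.orthogonal p}.ncard = 4
      · right
        refine ⟨Finset.mem_coe.mpr hHA, h4, ?_⟩
        have h5 := h3.2 h4
        rw [Set.ncard_coe_finset, ← hins, Finset.card_insert_of_notMem hHB, h5]
      · left
        have h5 := h3.1
        omega
    · left
      have hBA : B = A := Finset.erase_eq_of_notMem hHA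
      apply DPt.five_le B H hHB
      · intro p
        rw [hBA]
        exact h2 p
      · rw [hBA]
        exact hpen

end Pool.Agent.Results.MP_92820f_co.FewPointsOnH
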